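import Mathlib
import Pool.Agent.Lib.MP_bb2768_gt.Defs
import Pool.Agent.Lib.MP_bb2768_gt.Compactification

set_option autoImplicit false

open Topology Set Pool.Agent.Lib.MP_bb2768_gt

namespace Pool.Agent.Lib.MP_bb2768_gt.Old.Disproof

/-- There is a weakly pseudocompact `ℝ`-factorizable Hausdorff topological group which is not
precompact. -/
theorem result : ∃ (G : Type) (_ : Group G) (_ : TopologicalSpace G) (_ : IsTopologicalGroup G)
    (_ : T2Space G), WeaklyPseudocompact G ∧ RFactorizable G ∧ ¬ Precompact G :=
  ⟨GG, inferInstance, inferInstance, inferInstance, inferInstance, weaklyPseudocompact,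
    rFactorizable, not_precompact⟩

end Pool.Agent.Lib.MP_bb2768_gt.Old.Disproof
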